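import Pool.Agent.Helper23.MC.Goals3

set_option autoImplicit false

open Finset Filter Topology

open scoped Classical

namespace Pool.Agent.Helper18.MC

open Pool.Agent.Helper88.CR (Rec)
open Pool.Agent.Helper23.MC

/-- the first `K` multiples of `M d` -/
noncomputable def HM (K M d : ℕ) : Finset ℕ := (range K).image (fun i => i * (M * d))

lemma HM_card {K M d : ℕ} (h : 0 < M * d) : (HM K M d).card = K := by
  unfold HM
  rw [card_image_of_injective, card_range]
  intro a b hab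
  exact Nat.eq_of_mul_eq_mul_right h hab

lemma HM_adm {K M d : ℕ} (hM : ∀ l : ℕ, l.Prime → l ≤ K → l ∣ M) (l : ℕ) (hl : l.Prime) :
    ∃ a : ℕ, ∀ h ∈ HM K M d, ¬ h ≡ a [MOD l] := by
  by_cases hlK : l ≤ K
  · refine ⟨1, ?_⟩
    intro h hh
    obtain ⟨i, hi, rfl⟩ := mem_image.1 hh
    have h1 : l ∣ i * (M * d) := Dvd.dvd.mul_left (Dvd.dvd.mul_right (hM l hl hlK) d) i
    intro hc
    have h2 : 0 ≡ 1 [MOD l] := ((Nat.modEq_zero_iff_dvd.2 h1).symm).trans hc
    have h3 : l ∣ 1 - 0 := (Nat.modEq_iff_dvd' (by omega)).1 h2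
    have h4 := hl.two_le
    have h5 := Nat.le_of_dvd (by omega) h3
    omega
  · by_contra hcon
    push Not at hcon
    have hs : (range l) ⊆ (HM K M d).image (fun h => h % l) := by
      intro a ha
      obtain ⟨h, hh, hm⟩ := hcon a
      refine mem_image.2 ⟨h, hh, ?_⟩
      have h1 : h % l = a % l := hm
      rw [h1]
      exact Nat.mod_eq_of_lt (mem_range.1 ha)
    have c1 := card_le_card hs
    have c2 : ((HM K M d).image (fun h => h % l)).card ≤ K :=
      card_image_le.trans (card_image_le.trans (by simp))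
    rw [card_range] at c1
    omega

lemma cons {m : ℕ} {D : ℝ} {H : Finset ℕ} (hHD : ∀ h ∈ H, (h : ℝ) ≤ D)
    (hq : ∀ q : ℕ, q.Prime → m ≤ q → (q : ℝ) ≤ m + D → ∃ h ∈ H, q = m + h)
    (hc : 1 < (H.filter (fun h => (m + h).Prime)).card) :
    ∃ h ∈ H, ∃ h' ∈ H, h < h' ∧ ∃ n, Nat.nth Nat.Prime n = m + h ∧
      Nat.nth Nat.Prime (n + 1) = m + h' := by
  set F := H.filter (fun h => (m + h).Prime) with hF
  have hne : F.Nonempty := card_pos.1 (by omega)
  set h := F.min' hne with hh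
  have hhF : h ∈ F := min'_mem _ _
  have hne2 : (F.erase h).Nonempty := by
    apply card_pos.1
    rw [card_erase_of_mem hhF]
    omega
  set h' := (F.erase h).min' hne2 with hh'
  have hh'F : h' ∈ F.erase h := min'_mem _ _
  have hh'F' := mem_of_mem_erase hh'F
  have hlt : h < h' := lt_of_le_of_ne (min'_le _ _ hh'F') (Ne.symm (ne_of_mem_erase hh'F))
  have hp : (m + h).Prime := (mem_filter.1 hhF).2
  have hp' : (m + h').Prime := (mem_filter.1 hh'F').2
  refine ⟨h, (mem_filter.1 hhF).1, h', (mem_filter.1 hh'F').1, hlt,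
    Nat.count Nat.Prime (m + h), Nat.nth_count hp, ?_⟩
  have e1 : Nat.nth Nat.Prime (Nat.count Nat.Prime (m + h)) = m + h := Nat.nth_count hp
  have e2 : Nat.nth Nat.Prime (Nat.count Nat.Prime (m + h')) = m + h' := Nat.nth_count hp'
  have hcl : Nat.count Nat.Prime (m + h) < Nat.count Nat.Prime (m + h') := by
    rw [← Nat.nth_lt_nth Nat.infinite_setOfPred_prime, e1, e2]
    omega
  by_contra hcon
  have hcl2 : Nat.count Nat.Prime (m + h) + 1 < Nat.count Nat.Prime (m + h') := by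
    rcases Nat.lt_or_ge (Nat.count Nat.Prime (m + h) + 1) (Nat.count Nat.Prime (m + h'))
      with h1 | h1
    · exact h1
    · exfalso
      apply hcon
      have : Nat.count Nat.Prime (m + h) + 1 = Nat.count Nat.Prime (m + h') := by omega
      rw [this, e2]
  set q := Nat.nth Nat.Prime (Nat.count Nat.Prime (m + h) + 1) with hqd
  have hqp : q.Prime := Nat.nth_mem_of_infinite Nat.infinite_setOfPred_prime _
  have q1 : m + h < q := by
    rw [← e1]
    exact (Nat.nth_lt_nth Nat.infinite_setOfPred_prime).2 (by omega)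
  have q2 : q < m + h' := by
    rw [← e2]
    exact (Nat.nth_lt_nth Nat.infinite_setOfPred_prime).2 hcl2
  have q3 : (q : ℝ) ≤ m + D := by
    have := hHD h' (mem_filter.1 hh'F').1
    have h2 : (q : ℝ) ≤ m + h' := by exact_mod_cast q2.le
    linarith
  obtain ⟨h2, hh2, hq2⟩ := hq q hqp (by omega) q3
  have h2F : h2 ∈ F.erase h := by
    refine mem_erase.2 ⟨?_, mem_filter.2 ⟨hh2, by rw [← hq2]; exact hqp⟩⟩
    rintro rfl
    omega
  have := min'_le _ _ h2F
  omega

lemma count_aux {x : ℝ} {K : ℕ} {H : Finset ℕ} (hcard : H.card = K)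
    {D : ℝ} (hD : 0 ≤ D) (hHD : ∀ h ∈ H, (h : ℝ) ≤ D)
    {A : ℝ} (hA : 0 < A)
    (hS : A ≤ ({m : ℕ | (m : ℝ) + D ≤ x ∧
        (∀ q : ℕ, q.Prime → m ≤ q → (q : ℝ) ≤ m + D → ∃ h ∈ H, q = m + h) ∧
        1 < (H.filter (fun h => (m + h).Prime)).card}.ncard : ℝ)) :
    0 < K ∧ ∃ h ∈ H, ∃ h' ∈ H, h < h' ∧
      A / K ^ 2 ≤ ({n : ℕ | (Nat.nth Nat.Prime n : ℝ) ≤ x ∧
          Nat.nth Nat.Prime (n + 1) = Nat.nth Nat.Prime n + (h' - h - 1) + 1}.ncard : ℝ) := by
  set S := {m : ℕ | (m : ℝ) + D ≤ x ∧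
        (∀ q : ℕ, q.Prime → m ≤ q → (q : ℝ) ≤ m + D → ∃ h ∈ H, q = m + h) ∧
        1 < (H.filter (fun h => (m + h).Prime)).card} with hSd
  have hSfin : S.Finite := by
    apply Set.Finite.subset (Set.finite_Iic ⌊x⌋₊)
    intro m hm
    have h1 : (m : ℝ) + D ≤ x := hm.1
    exact Nat.le_floor (by linarith)
  have hch : ∀ m : ℕ, ∃ p : ℕ × ℕ, m ∈ S → (p.1 ∈ H ∧ p.2 ∈ H ∧ p.1 < p.2 ∧
      ∃ n, Nat.nth Nat.Prime n = m + p.1 ∧ Nat.nth Nat.Prime (n + 1) = m + p.2) := by
    intro m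
    by_cases hm : m ∈ S
    · obtain ⟨h, h1, h', h2, h3, h4⟩ := cons hHD hm.2.1 hm.2.2
      exact ⟨(h, h'), fun _ => ⟨h1, h2, h3, h4⟩⟩
    · exact ⟨(0, 0), fun h => absurd h hm⟩
  choose g hg using hch
  have hSc : S.ncard = hSfin.toFinset.card := Set.ncard_eq_toFinset_card S hSfin
  have hSne : hSfin.toFinset.Nonempty := by
    apply card_pos.1
    rw [← hSc]
    have : (0 : ℝ) < S.ncard := lt_of_lt_of_le hA hS
    exact_mod_cast this
  obtain ⟨m0, hm0⟩ := hSne
  have hm0' := hg m0 (hSfin.mem_toFinset.1 hm0)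
  have hKpos : 0 < K := by
    rw [← hcard]
    exact card_pos.2 ⟨_, hm0'.1⟩
  refine ⟨hKpos, ?_⟩
  have hKr : (0 : ℝ) < K := by exact_mod_cast hKpos
  have hmap : ∀ m ∈ hSfin.toFinset, g m ∈ H ×ˢ H := by
    intro m hm
    have := hg m (hSfin.mem_toFinset.1 hm)
    exact mem_product.2 ⟨this.1, this.2.1⟩
  have hb : (H ×ˢ H).card • (A / (K : ℝ) ^ 2) ≤ (hSfin.toFinset.card : ℝ) := by
    rw [card_product, hcard, nsmul_eq_mul, ← hSc]
    have : ((K * K : ℕ) : ℝ) * (A / (K : ℝ) ^ 2) = A := by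
      push_cast
      field_simp
    rw [this]
    exact hS
  obtain ⟨p, hp, hle⟩ := Finset.exists_le_card_fiber_of_nsmul_le_card_of_maps_to hmap
    ⟨_, hmap m0 hm0⟩ hb
  have hpos : 0 < A / (K : ℝ) ^ 2 := by positivity
  have hTne : 0 < ((hSfin.toFinset).filter (fun m => g m = p)).card := by
    have : (0 : ℝ) < (((hSfin.toFinset).filter (fun m => g m = p)).card : ℝ) :=
      lt_of_lt_of_le hpos hle
    exact_mod_cast this
  obtain ⟨m1, hm1⟩ := card_pos.1 hTne
  obtain ⟨hm1a, hm1b⟩ := mem_filter.1 hm1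
  have hq := hg m1 (hSfin.mem_toFinset.1 hm1a)
  rw [hm1b] at hq
  refine ⟨p.1, hq.1, p.2, hq.2.1, hq.2.2.1, hle.trans ?_⟩
  set T := (hSfin.toFinset).filter (fun m => g m = p) with hT
  have key : ∀ m ∈ T, ∃ n, Nat.nth Nat.Prime n = m + p.1 ∧
      Nat.nth Nat.Prime (n + 1) = m + p.2 := by
    intro m hm
    obtain ⟨hma, hmb⟩ := mem_filter.1 hm
    have := (hg m (hSfin.mem_toFinset.1 hma)).2.2.2
    rwa [hmb] at this
  have hfin : ({n : ℕ | (Nat.nth Nat.Prime n : ℝ) ≤ x ∧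
      Nat.nth Nat.Prime (n + 1) = Nat.nth Nat.Prime n + (p.2 - p.1 - 1) + 1}).Finite := by
    apply Set.Finite.subset (Set.finite_Iic ⌊x⌋₊)
    intro n hn
    have h1 : (Nat.nth Nat.Prime n : ℝ) ≤ x := hn.1
    have h2 : n ≤ Nat.nth Nat.Prime n := Nat.le_nth (fun hf => absurd hf Nat.infinite_setOfPred_prime)
    have h3 : (n : ℝ) ≤ x := le_trans (by exact_mod_cast h2) h1
    exact Nat.le_floor h3
  have hinj : Set.InjOn (fun m => Nat.count Nat.Prime (m + p.1)) (T : Set ℕ) := by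
    intro a ha b hb hab
    obtain ⟨n, hn, _⟩ := key a ha
    obtain ⟨n', hn', _⟩ := key b hb
    have pa : (a + p.1).Prime := by
      rw [← hn]
      exact Nat.nth_mem_of_infinite Nat.infinite_setOfPred_prime _
    have pb : (b + p.1).Prime := by
      rw [← hn']
      exact Nat.nth_mem_of_infinite Nat.infinite_setOfPred_prime _
    have e1 := Nat.nth_count pa
    have e2 := Nat.nth_count pb
    have e3 : Nat.count Nat.Prime (a + p.1) = Nat.count Nat.Prime (b + p.1) := hab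
    rw [e3, e2] at e1
    omega
  have hle2 : T.card ≤ ({n : ℕ | (Nat.nth Nat.Prime n : ℝ) ≤ x ∧
      Nat.nth Nat.Prime (n + 1) = Nat.nth Nat.Prime n + (p.2 - p.1 - 1) + 1}).ncard := by
    rw [← Set.ncard_coe_finset T, ← hinj.ncard_image]
    apply Set.ncard_le_ncard _ hfin
    rintro _ ⟨m, hm, rfl⟩
    obtain ⟨n, hn, hn2⟩ := key m hm
    have pa : (m + p.1).Prime := by
      rw [← hn]
      exact Nat.nth_mem_of_infinite Nat.infinite_setOfPred_prime _
    have e1 := Nat.nth_count pa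
    have e2 : Nat.count Nat.Prime (m + p.1) = n := by
      apply Nat.nth_injective Nat.infinite_setOfPred_prime
      rw [e1, hn]
    have hmS : m ∈ S := hSfin.mem_toFinset.1 (mem_filter.1 hm).1
    show _ ∧ _
    simp only
    rw [e2]
    have hlt := hq.2.2.1
    refine ⟨?_, ?_⟩
    · rw [hn]
      have h1 := hHD p.1 hq.1
      have h2 : (m : ℝ) + D ≤ x := hmS.1
      push_cast
      linarith
    · rw [hn, hn2]
      omega
  exact_mod_cast hle2

lemma growth (K : ℕ) (R : ℝ) : ∃ X : ℝ, ∀ x : ℝ, X ≤ x → 1 < x ∧ R ≤ Rec x ∧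
    x ^ (1 - 1 / Real.log (Real.log x) ^ 2) * (K : ℝ) ^ 2 ≤
      x ^ (1 - 1 / (4 * Real.log (Real.log x) ^ 2)) := by
  have tl : Tendsto Real.log atTop atTop := Real.tendsto_log_atTop
  have tl2 := tl.comp tl
  have tl3 := tl.comp tl2
  have tl4 := tl.comp tl3
  set a : ℝ := Real.log ((K : ℝ) ^ 2 + 1) + 1 with ha
  have hapos : 0 < a := by
    have : 0 ≤ Real.log ((K : ℝ) ^ 2 + 1) := Real.log_nonneg (by nlinarith [sq_nonneg (K : ℝ)])
    linarith
  have hlo : ∀ᶠ y : ℝ in atTop, ‖Real.log y ^ 2‖ ≤ 3 / (4 * a) * ‖y‖ := by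
    have := (Real.isLittleO_pow_log_id_atTop (n := 2)).def (show (0 : ℝ) < 3 / (4 * a) by positivity)
    simpa using this
  have h1 := tl.eventually hlo
  have h2 : ∀ᶠ x : ℝ in atTop, max 1 R ≤ Real.log x := tl.eventually_ge_atTop _
  have h3 : ∀ᶠ x : ℝ in atTop, 1 ≤ Real.log (Real.log x) := tl2.eventually_ge_atTop _
  have h4 : ∀ᶠ x : ℝ in atTop, 1 ≤ Real.log (Real.log (Real.log x)) := tl3.eventually_ge_atTop _
  have h5 : ∀ᶠ x : ℝ in atTop, 1 ≤ Real.log (Real.log (Real.log (Real.log x))) :=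
    tl4.eventually_ge_atTop _
  have h6 : ∀ᶠ x : ℝ in atTop, 1 < x := eventually_gt_atTop 1
  obtain ⟨X, hX⟩ := eventually_atTop.1 (h1.and (h2.and (h3.and (h4.and (h5.and h6)))))
  refine ⟨X, fun x hx => ?_⟩
  obtain ⟨e1, e2, e3, e4, e5, e6⟩ := hX x hx
  have hx0 : 0 < x := by linarith
  refine ⟨e6, ?_, ?_⟩
  · have hR : R ≤ Real.log x := le_trans (le_max_right _ _) e2
    have h1R : 1 ≤ Real.log x := le_trans (le_max_left _ _) e2
    refine hR.trans ?_
    unfold Rec
    rw [le_div_iff₀ (by positivity)]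
    have q1 : Real.log (Real.log (Real.log x)) ≤ Real.log (Real.log x) := by
      have := Real.log_le_sub_one_of_pos (show 0 < Real.log (Real.log x) by linarith)
      linarith
    have q2 : Real.log (Real.log (Real.log x)) ^ 2 ≤ Real.log (Real.log x) ^ 2 :=
      pow_le_pow_left₀ (by linarith) q1 2
    calc Real.log x * Real.log (Real.log (Real.log x)) ^ 2
        ≤ Real.log x * Real.log (Real.log x) ^ 2 :=
          mul_le_mul_of_nonneg_left q2 (by linarith)
      _ = Real.log x * Real.log (Real.log x) ^ 2 * 1 := by ring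
      _ ≤ _ := mul_le_mul_of_nonneg_left e5 (by positivity)
  · have hl2 : 0 < Real.log (Real.log x) := by linarith
    have hsplit : (1 : ℝ) - 1 / (4 * Real.log (Real.log x) ^ 2) =
        (1 - 1 / Real.log (Real.log x) ^ 2) + 3 / (4 * Real.log (Real.log x) ^ 2) := by
      field_simp
      ring
    rw [hsplit, Real.rpow_add hx0]
    apply mul_le_mul_of_nonneg_left _ (Real.rpow_nonneg hx0.le _)
    rw [Real.rpow_def_of_pos hx0]
    have h7 : Real.log ((K : ℝ) ^ 2 + 1) ≤ Real.log x * (3 / (4 * Real.log (Real.log x) ^ 2)) := by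
      have e1' : Real.log (Real.log x) ^ 2 ≤ 3 / (4 * a) * Real.log x := by
        have := e1
        rw [Real.norm_of_nonneg (by positivity), Real.norm_of_nonneg
          (by linarith [le_trans (le_max_left (1 : ℝ) R) e2])] at this
        exact this
      have : a ≤ Real.log x * (3 / (4 * Real.log (Real.log x) ^ 2)) := by
        rw [← mul_div_assoc, le_div_iff₀ (by positivity)]
        have h8 : a * (4 * Real.log (Real.log x) ^ 2) ≤ a * (4 * (3 / (4 * a) * Real.log x)) := by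
          apply mul_le_mul_of_nonneg_left _ hapos.le
          linarith
        have h9 : a * (4 * (3 / (4 * a) * Real.log x)) = Real.log x * 3 := by
          field_simp
        linarith
      linarith
    calc (K : ℝ) ^ 2 ≤ (K : ℝ) ^ 2 + 1 := by linarith
      _ = Real.exp (Real.log ((K : ℝ) ^ 2 + 1)) := (Real.exp_log (by positivity)).symm
      _ ≤ _ := Real.exp_le_exp.2 h7

theorem ln (hMM : StmtMM0) : StmtLN := by
  obtain ⟨K, c, hc, X0, hX0⟩ := hMM 1
  set M := primorial K with hM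
  have hMpos : 0 < M := primorial_pos K
  have hMd : ∀ l : ℕ, l.Prime → l ≤ K → l ∣ M := fun l hl hlK =>
    (hl.dvd_primorial_iff).2 hlK
  obtain ⟨X1, hX1⟩ := growth K (2 * (K + 1) * M / c)
  refine ⟨c / (2 * (K + 1) ^ 2 * M), by positivity, max X0 X1, fun x hx => ?_⟩
  have hxX0 : X0 ≤ x := (le_max_left _ _).trans hx
  obtain ⟨hx1, hR, hg⟩ := hX1 x ((le_max_right _ _).trans hx)
  have hx0 : 0 < x := by linarith
  have hMr : (0 : ℝ) < M := by exact_mod_cast hMpos
  have hRpos : 0 < Rec x := lt_of_lt_of_le (by positivity) hR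
  have hApos : 0 < x ^ (1 - 1 / (4 * Real.log (Real.log x) ^ 2)) := Real.rpow_pos_of_pos hx0 _
  have hmain : ∀ d : ℕ, 1 ≤ d → ((K : ℝ) + 1) * M * d ≤ c * Rec x →
      0 < K ∧ ∃ l : ℕ, (∃ i : ℕ, 1 ≤ i ∧ i < K ∧ l + 1 = i * (M * d)) ∧
        x ^ (1 - 1 / Real.log (Real.log x) ^ 2)
        ≤ ({n : ℕ | (Nat.nth Nat.Prime n : ℝ) ≤ x ∧
          Nat.nth Nat.Prime (n + 1) = Nat.nth Nat.Prime n + l + 1}.ncard : ℝ) := by
    intro d hd hdle
    have hMdpos : 0 < M * d := Nat.mul_pos hMpos hd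
    have hle : ∀ h ∈ HM K M d, (h : ℝ) ≤ c * Rec x := by
      intro h hh
      obtain ⟨i, hi, rfl⟩ := mem_image.1 hh
      have hi' : (i : ℝ) ≤ K + 1 := by
        have := mem_range.1 hi
        have h2 : i ≤ K + 1 := by omega
        exact_mod_cast h2
      push_cast
      calc (i : ℝ) * (M * d) ≤ (K + 1) * (M * d) :=
            mul_le_mul_of_nonneg_right hi' (by positivity)
        _ = ((K : ℝ) + 1) * M * d := by ring
        _ ≤ _ := hdle
    have hS := hX0 x hxX0 (HM K M d) (HM_card hMdpos) hle (HM_adm hMd)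
    obtain ⟨hK, h, hh, h', hh', hlt, hcount⟩ := count_aux (HM_card hMdpos)
      (by positivity) hle hApos hS
    obtain ⟨i, hi, rfl⟩ := mem_image.1 hh
    obtain ⟨j, hj, rfl⟩ := mem_image.1 hh'
    have hij : i < j := by
      by_contra hcon
      have := Nat.mul_le_mul_right (M * d) (Nat.not_lt.1 hcon)
      exact absurd hlt (Nat.not_lt.2 this)
    refine ⟨hK, j * (M * d) - i * (M * d) - 1, ⟨j - i, by omega, ?_, ?_⟩, ?_⟩
    · have := mem_range.1 hj
      omega
    · rw [Nat.sub_mul]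
      have : i * (M * d) < j * (M * d) := hlt
      omega
    · have hKr : (0 : ℝ) < K := by exact_mod_cast hK
      refine le_trans ?_ hcount
      rw [le_div_iff₀ (by positivity)]
      exact hg
  set y : ℝ := c * Rec x / ((K + 1) * M) with hy
  have hy2 : 2 ≤ y := by
    rw [hy, le_div_iff₀ (by positivity)]
    have : 2 * ((K : ℝ) + 1) * M ≤ Rec x * c := by
      rw [div_le_iff₀ hc] at hR
      exact hR
    linarith
  set D : Finset ℕ := Icc 1 ⌊y⌋₊ with hDdef
  have hDle : ∀ d ∈ D, ((K : ℝ) + 1) * M * d ≤ c * Rec x := by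
    intro d hd
    have h1 : (d : ℝ) ≤ y := (Nat.le_floor_iff (by linarith)).1 (mem_Icc.1 hd).2
    rw [hy, le_div_iff₀ (by positivity)] at h1
    linarith
  have hch : ∀ d : ℕ, ∃ li : ℕ × ℕ, d ∈ D → (1 ≤ li.2 ∧ li.2 < K ∧ li.1 + 1 = li.2 * (M * d)) ∧
        x ^ (1 - 1 / Real.log (Real.log x) ^ 2)
        ≤ ({n : ℕ | (Nat.nth Nat.Prime n : ℝ) ≤ x ∧
          Nat.nth Nat.Prime (n + 1) = Nat.nth Nat.Prime n + li.1 + 1}.ncard : ℝ) := by
    intro d
    by_cases hd : d ∈ D
    · obtain ⟨_, l, ⟨i, h1, h2, h3⟩, h4⟩ := hmain d (mem_Icc.1 hd).1 (hDle d hd)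
      exact ⟨(l, i), fun _ => ⟨⟨h1, h2, h3⟩, h4⟩⟩
    · exact ⟨(0, 0), fun h => absurd h hd⟩
  choose g hg' using hch
  have hxA : 0 < x ^ (1 - 1 / Real.log (Real.log x) ^ 2) := Real.rpow_pos_of_pos hx0 _
  set LL : Set ℕ := {l : ℕ | x ^ (1 - 1 / Real.log (Real.log x) ^ 2)
        ≤ ({n : ℕ | (Nat.nth Nat.Prime n : ℝ) ≤ x ∧
          Nat.nth Nat.Prime (n + 1) = Nat.nth Nat.Prime n + l + 1}.ncard : ℝ)} with hLL
  have hLLfin : LL.Finite := by
    apply Set.Finite.subset ((Set.finite_Iic ⌊x⌋₊).image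
      (fun n => Nat.nth Nat.Prime (n + 1) - Nat.nth Nat.Prime n - 1))
    intro l hl
    have h1 : (0 : ℝ) < ({n : ℕ | (Nat.nth Nat.Prime n : ℝ) ≤ x ∧
          Nat.nth Nat.Prime (n + 1) = Nat.nth Nat.Prime n + l + 1}.ncard : ℝ) :=
      lt_of_lt_of_le hxA hl
    have h2 : 0 < ({n : ℕ | (Nat.nth Nat.Prime n : ℝ) ≤ x ∧
          Nat.nth Nat.Prime (n + 1) = Nat.nth Nat.Prime n + l + 1}.ncard) := by
      exact_mod_cast h1
    obtain ⟨n, hn1, hn2⟩ := Set.nonempty_of_ncard_ne_zero h2.ne'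
    refine ⟨n, ?_, ?_⟩
    · have h3 : n ≤ Nat.nth Nat.Prime n :=
        Nat.le_nth (fun hf => absurd hf Nat.infinite_setOfPred_prime)
      have h4 : (n : ℝ) ≤ x := le_trans (by exact_mod_cast h3) hn1
      exact Nat.le_floor h4
    · simp only
      rw [hn2]
      omega
  have hcard1 : D.card ≤ (K + 1) * (D.image (fun d => (g d).1)).card := by
    apply card_le_mul_card_image
    intro l _
    have : (D.filter (fun d => (g d).1 = l)).card ≤ (range (K + 1)).card := by
      apply card_le_card_of_injOn (fun d => (g d).2)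
      · intro d hd
        have hd' := mem_filter.1 hd
        have := (hg' d hd'.1).1.2.1
        simp only [coe_range, Set.mem_Iio]
        omega
      · intro a ha b hb hab
        have ha' := mem_filter.1 ha
        have hb' := mem_filter.1 hb
        have a1 := (hg' a ha'.1).1
        have b1 := (hg' b hb'.1).1
        have hab' : (g a).2 = (g b).2 := hab
        have e1 : (g a).2 * (M * a) = (g a).2 * (M * b) := by
          rw [← a1.2.2, hab', ← b1.2.2, ha'.2, hb'.2]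
        have e2 := Nat.eq_of_mul_eq_mul_left (by omega : 0 < (g a).2) e1
        exact Nat.eq_of_mul_eq_mul_left hMpos e2
    simpa using this
  have hcard2 : (D.image (fun d => (g d).1)).card ≤ LL.ncard := by
    rw [← Set.ncard_coe_finset]
    apply Set.ncard_le_ncard _ hLLfin
    intro l hl
    obtain ⟨d, hd, rfl⟩ := mem_image.1 (mem_coe.1 hl)
    exact (hg' d hd).2
  have hDcard : y / 2 ≤ D.card := by
    rw [hDdef, Nat.card_Icc, Nat.add_sub_cancel]
    have := Nat.lt_floor_add_one y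
    linarith
  have hfinal : y / 2 ≤ (K + 1) * (LL.ncard : ℝ) := by
    have h1 : (D.card : ℝ) ≤ (K + 1) * ((D.image (fun d => (g d).1)).card : ℝ) := by
      exact_mod_cast hcard1
    have h2 : ((D.image (fun d => (g d).1)).card : ℝ) ≤ (LL.ncard : ℝ) := by
      exact_mod_cast hcard2
    have h3 : ((K : ℝ) + 1) * ((D.image (fun d => (g d).1)).card : ℝ) ≤
        (K + 1) * (LL.ncard : ℝ) := mul_le_mul_of_nonneg_left h2 (by positivity)
    linarith
  have hRec : Real.log x * Real.log (Real.log x) ^ 2 *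
      Real.log (Real.log (Real.log (Real.log x))) / Real.log (Real.log (Real.log x)) ^ 2 = Rec x :=
    rfl
  rw [hRec]
  have h4 : c / (2 * ((K : ℝ) + 1) ^ 2 * M) * Rec x = y / 2 / (K + 1) := by
    rw [hy]
    field_simp
  rw [h4, div_le_iff₀ (by positivity)]
  linarith

end Pool.Agent.Helper18.MC
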